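import Pool.Agent.W192.HK.PartsL

/-!
Project HL, part PAIR: coprime pairs of ideals with equal character value.
-/

set_option autoImplicit false

open Complex Filter Topology Set

namespace Pool.Agent.W765.HK

open Pool.Agent.W192.HK



/-- packing in the plane -/
theorem pack {τ : Type*} (P : Set τ) (w : τ → ℂ) (X S : ℝ) (hS : 0 < S) (hX : 0 ≤ X)
    (h1 : ∀ p ∈ P, Complex.normSq (w p) ≤ X)
    (h2 : ∀ p ∈ P, ∀ q ∈ P, p ≠ q → S ≤ Complex.normSq (w p - w q)) :
    P.Finite ∧ (P.ncard : ℝ) ≤ 16 * (X / S) + 18 := by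
  set δ : ℝ := Real.sqrt (S / 2) with hδ
  have hδ0 : 0 < δ := Real.sqrt_pos.2 (by linarith)
  have hδ2 : δ ^ 2 = S / 2 := Real.sq_sqrt (by linarith)
  set a : ℝ := Real.sqrt (2 * (X / S)) with ha
  have hY : 0 ≤ 2 * (X / S) := by positivity
  have ha0 : 0 ≤ a := Real.sqrt_nonneg _
  have ha2 : a ^ 2 = 2 * (X / S) := Real.sq_sqrt hY
  set N : ℤ := ⌈a⌉ with hN
  let f : τ → ℤ × ℤ := fun p => (⌊(w p).re / δ⌋, ⌊(w p).im / δ⌋)
  have hcoord : ∀ t : ℝ, t ^ 2 ≤ X → ⌊t / δ⌋ ∈ Finset.Icc (-N) N := by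
    intro t ht
    have h3 : |t / δ| ≤ a := by
      rw [ha]
      apply Real.le_sqrt_of_sq_le
      rw [sq_abs, div_pow, hδ2]
      rw [div_le_iff₀ (by linarith)]
      have : 2 * (X / S) * (S / 2) = X := by field_simp
      rw [this]
      exact ht
    have h4 := abs_le.1 h3
    have h5 : a ≤ N := Int.le_ceil a
    rw [Finset.mem_Icc]
    constructor
    · rw [Int.le_floor]
      push_cast
      linarith [h4.1]
    · have h6 : ((⌊t / δ⌋ : ℤ) : ℝ) ≤ (N : ℝ) := (Int.floor_le _).trans (h4.2.trans h5)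
      exact_mod_cast h6
  have hmaps : Set.MapsTo f P ((Finset.Icc (-N) N ×ˢ Finset.Icc (-N) N : Finset (ℤ × ℤ)) :
      Set (ℤ × ℤ)) := by
    intro p hp
    have h3 := h1 p hp
    rw [Complex.normSq_apply] at h3
    rw [Finset.mem_coe, Finset.mem_product]
    exact ⟨hcoord _ (by nlinarith [mul_self_nonneg (w p).im]),
      hcoord _ (by nlinarith [mul_self_nonneg (w p).re])⟩
  have hinj : Set.InjOn f P := by
    intro p hp q hq hpq
    by_contra hne
    have h3 := h2 p hp q hq hne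
    have h4 : ⌊(w p).re / δ⌋ = ⌊(w q).re / δ⌋ := congrArg Prod.fst hpq
    have h5 : ⌊(w p).im / δ⌋ = ⌊(w q).im / δ⌋ := congrArg Prod.snd hpq
    have key : ∀ s t : ℝ, ⌊s / δ⌋ = ⌊t / δ⌋ → (s - t) ^ 2 < δ ^ 2 := by
      intro s t hst
      have h6 := Int.abs_sub_lt_one_of_floor_eq_floor hst
      have h7 : |s - t| < δ := by
        rw [← sub_div, abs_div, abs_of_pos hδ0, div_lt_one hδ0] at h6
        exact h6
      rw [← sq_abs]
      exact pow_lt_pow_left₀ h7 (abs_nonneg _) (by norm_num)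
    have h6 := key _ _ h4
    have h7 := key _ _ h5
    rw [Complex.normSq_apply, Complex.sub_re, Complex.sub_im] at h3
    nlinarith
  have hfin : P.Finite := Set.Finite.of_injOn hmaps hinj (Finset.finite_toSet _)
  refine ⟨hfin, ?_⟩
  have h3 : P.ncard ≤ (Finset.Icc (-N) N ×ˢ Finset.Icc (-N) N : Finset (ℤ × ℤ)).card := by
    rw [← Set.ncard_coe_finset]
    exact Set.ncard_le_ncard_of_injOn f hmaps hinj (Finset.finite_toSet _)
  rw [Finset.card_product, Int.card_Icc] at h3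
  have hN0 : 0 ≤ N := Int.ceil_nonneg ha0
  have h4 : ((N + 1 - -N).toNat : ℝ) = 2 * (N : ℝ) + 1 := by
    have : ((N + 1 - -N).toNat : ℤ) = N + 1 - -N := Int.toNat_of_nonneg (by omega)
    have h5 : ((N + 1 - -N).toNat : ℝ) = ((N + 1 - -N : ℤ) : ℝ) := by
      exact_mod_cast congrArg (fun z : ℤ => (z : ℝ)) this
    rw [h5]
    push_cast
    ring
  have h5 : (N : ℝ) < a + 1 := Int.ceil_lt_add_one a
  have h6 : (P.ncard : ℝ) ≤ (2 * (N : ℝ) + 1) * (2 * (N : ℝ) + 1) := by
    rw [← h4]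
    exact_mod_cast h3
  have h7 : (0 : ℝ) ≤ N := by exact_mod_cast hN0
  have h8 : (2 * (N : ℝ) + 1) * (2 * (N : ℝ) + 1) ≤ (2 * a + 3) * (2 * a + 3) := by nlinarith
  nlinarith [sq_nonneg (2 * a - 3)]

section

variable {R : Subring ℂ}

/-- elements of an ideal -/
theorem nm_le_normSq [IsDedekindDomain R] (hb : ∀ I J : Ideal R, I ≠ ⊥ → J ∣ I → nm J ≤ nm I)
    (hn : ∀ α : R, nm (sp α) = Complex.normSq (α : ℂ)) {J : Ideal R} {δ : R} (hδ : δ ∈ J)
    (h0 : δ ≠ 0) : nm J ≤ Complex.normSq (δ : ℂ) := by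
  rw [← hn]
  refine hb _ _ ?_ ?_
  · intro h
    exact h0 (Ideal.span_singleton_eq_bot.1 h)
  · rw [Ideal.dvd_iff_le, Ideal.span_singleton_le_iff_mem]
    exact hδ

theorem pair_eq [IsDedekindDomain R] {I J I' J' b1 b2 : Ideal R} {α β α' β' : R}
    (hI : I * b1 = sp α) (hJ : J * b2 = sp β) (hI' : I' * b1 = sp α') (hJ' : J' * b2 = sp β')
    (hb1 : b1 ≠ ⊥) (hb2 : b2 ≠ ⊥) (hI0 : I ≠ ⊥) (hc : IsCoprime I J)
    (hc' : IsCoprime I' J') (h : α * β' = α' * β) : I = I' ∧ J = J' := by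
  have h1 : I * J' * (b1 * b2) = I' * J * (b1 * b2) := by
    have e1 : I * J' * (b1 * b2) = (I * b1) * (J' * b2) := by ring
    have e2 : I' * J * (b1 * b2) = (I' * b1) * (J * b2) := by ring
    rw [e1, e2, hI, hJ, hI', hJ', Ideal.span_singleton_mul_span_singleton,
      Ideal.span_singleton_mul_span_singleton, h]
  have hbb : b1 * b2 ≠ ⊥ := mul_ne_zero hb1 hb2
  have h2 : I * J' = I' * J := mul_right_cancel₀ hbb h1
  have d1 : I ∣ I' := by
    refine hc.dvd_of_dvd_mul_right ?_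
    rw [← h2]
    exact Dvd.intro _ rfl
  have d2 : I' ∣ I := by
    refine hc'.dvd_of_dvd_mul_right ?_
    rw [h2]
    exact Dvd.intro _ rfl
  have h3 : I = I' := le_antisymm (Ideal.dvd_iff_le.1 d2) (Ideal.dvd_iff_le.1 d1)
  refine ⟨h3, ?_⟩
  rw [← h3] at h2
  exact (mul_left_cancel₀ hI0 h2).symm

end

theorem l_pair (h1 : H_BASIC) (h2 : H_CLS) (h3 : H_FPR) (h4 : H_KER) : L_PAIR := by
  classical
  intro R ω hQ
  have hded : IsDedekindDomain R := hQ.ded
  obtain ⟨-, b2, b3, b4, b5, b6, b7, -, -⟩ := h1 R ω hQ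
  obtain ⟨h, hh1, -, hcls⟩ := h2 R ω hQ
  obtain ⟨CK, hCK, hker⟩ := h4 R ω hQ
  have hhpos : (0 : ℝ) < h := by exact_mod_cast hh1
  refine ⟨(h : ℝ) ^ 2 * (4 * CK * 128), by positivity, ?_⟩
  intro c χ hχ d hd x y hx hy
  obtain ⟨fpr1, fpr2, fpr3, -⟩ := h3 R ω hQ c χ hχ
  -- the modulus `q = 2 c`
  have h2R : (2 : R) ≠ 0 := by
    intro h
    have : ((2 : R) : ℂ) = ((0 : R) : ℂ) := by rw [h]
    norm_num at this
  have hsp2 : (sp (2 : R)) ≠ ⊥ := fun h => h2R (Ideal.span_singleton_eq_bot.1 h)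
  have hnm2 : nm (sp (2 : R)) = 4 := by
    rw [b5]
    have : ((2 : R) : ℂ) = 2 := rfl
    rw [this, Complex.normSq_ofNat]
    norm_num
  set q : Ideal R := c * sp (2 : R) with hq
  have hq0 : q ≠ ⊥ := mul_ne_zero hχ.ne hsp2
  have hcq : c ∣ q := Dvd.intro _ rfl
  have hqc : q ≤ c := Ideal.mul_le_left
  have hqnm : nm q = nm c * 4 := by rw [hq, b4, hnm2]
  have hnc : 1 ≤ nm c := b3 c hχ.ne
  obtain ⟨s, hh, μ, T, hs, hsys⟩ := hcls q hq0
  have hsne := hsys.cs.ne
  have hbc : ∀ b ∈ s, IsCoprime b c := by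
    intro b hb
    have := hsys.cp b hb
    rw [hq] at this
    exact this.of_mul_right_left
  have hχb : ∀ b ∈ s, χ b ≠ 0 := by
    intro b hb h0
    rcases (hχ.zero b).1 h0 with h | h
    · exact hsne b hb h
    · exact h (hbc b hb)
  -- representatives
  have hch : ∀ I : Ideal R, ∃ (b : Ideal R) (α : R), I ≠ ⊥ → b ∈ s ∧ I * b = sp α := by
    intro I
    by_cases hI : I = ⊥
    · exact ⟨⊥, 0, fun h => absurd hI h⟩
    · obtain ⟨b, ⟨hb, α, hα⟩, -⟩ := hsys.cs.uni I hI
      exact ⟨b, α, fun _ => ⟨hb, hα⟩⟩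
  choose bb al hbal using hch
  -- properties of the elements of `prs`
  have hne : ∀ I : Ideal R, χ I ≠ 0 → I ≠ ⊥ := by
    intro I hI h
    exact hI ((hχ.zero I).2 (Or.inl h))
  have hal : ∀ I : Ideal R, χ I ≠ 0 → bb I ∈ s ∧ I * bb I = sp (al I) ∧ al I ≠ 0 ∧
      χ (sp (al I)) = χ I * χ (bb I) ∧ IsCoprime (sp (al I)) c := by
    intro I hI
    obtain ⟨hb, he⟩ := hbal I (hne I hI)
    have hcop : IsCoprime I c := by
      by_contra hnc
      exact hI ((hχ.zero I).2 (Or.inr hnc))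
    refine ⟨hb, he, ?_, ?_, ?_⟩
    · intro h0
      have : sp (al I) = ⊥ := by rw [h0]; exact Ideal.span_singleton_eq_bot.2 rfl
      rw [← he] at this
      exact mul_ne_zero (hne I hI) (hsne _ hb) this
    · rw [← he, hχ.mul]
    · rw [← he]
      exact hcop.mul_left (hbc _ hb)
  -- residue classes
  have hres : ∀ p ∈ prs χ x y, ∃ r ∈ T, al p.1 - r * al p.2 ∈ c ∧ r ≠ 0 := by
    rintro ⟨I, J⟩ ⟨hcop, hIx, hJy, hχI, hχIJ⟩
    have hχJ : χ J ≠ 0 := by
      have h' : χ I = χ J := hχIJ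
      rw [← h']
      exact hχI
    obtain ⟨-, -, hI0, -, hIc⟩ := hal I hχI
    obtain ⟨-, -, hJ0, -, hJc⟩ := hal J hχJ
    have hv : ∃ v : R, al I - v * al J ∈ c ∧ v ∉ q := by
      by_cases hct : c = ⊤
      · refine ⟨1, by rw [hct]; exact Submodule.mem_top, ?_⟩
        intro h1q
        have hqt : q = ⊤ := (Ideal.eq_top_iff_one q).2 h1q
        have h5 := hqnm
        rw [(b7 q).2 hqt, (b7 c).2 hct] at h5
        norm_num at h5
      · obtain ⟨u, hu, v, hv, huv⟩ := Ideal.isCoprime_iff_exists.1 hJc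
        obtain ⟨u', rfl⟩ := Ideal.mem_span_singleton'.1 hu
        refine ⟨u' * al I, ?_, ?_⟩
        · have e : al I - u' * al I * al J = al I * v := by
            have : v = 1 - u' * al J := by rw [← huv]; ring
            rw [this]
            ring
          rw [e]
          exact c.mul_mem_left _ hv
        · intro hmem
          have h5 : u' * al I ∈ c := hqc hmem
          have h6 : al I ∈ c := by
            have e : al I = al I * v + (u' * al I) * al J := by
              have : v = 1 - u' * al J := by rw [← huv]; ring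
              rw [this]
              ring
            rw [e]
            exact c.add_mem (c.mul_mem_left _ hv) (c.mul_mem_right _ h5)
          have h7 : sp (al I) ≤ c := (Ideal.span_singleton_le_iff_mem c).2 h6
          have h8 := Ideal.isCoprime_iff_sup_eq.1 hIc
          rw [sup_eq_right.2 h7] at h8
          exact hct h8
    obtain ⟨v, hv1, hv2⟩ := hv
    obtain ⟨r, ⟨hrT, hr⟩, -⟩ := hsys.rp.uni v
    refine ⟨r, hrT, ?_, ?_⟩
    · have e : al I - r * al J = (al I - v * al J) + (v - r) * al J := by ring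
      show al I - r * al J ∈ c
      rw [e]
      exact c.add_mem hv1 (c.mul_mem_right _ (hqc hr))
    · intro hr0
      rw [hr0, sub_zero] at hr
      exact hv2 hr
  choose! rr hrr using hres
  -- the pieces
  set K : ℕ := Nat.log 2 ⌊y⌋₊ with hK
  let kk : Ideal R → ℕ := fun J => Nat.log 2 (Nat.card (R ⧸ J))
  let PP : (Ideal R × Ideal R) × R × ℕ → Set (Ideal R × Ideal R) := fun i =>
    {p | p ∈ prs χ x y ∧ bb p.1 = i.1.1 ∧ bb p.2 = i.1.2 ∧ rr p = i.2.1 ∧ kk p.2 = i.2.2}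
  let Bd : ℕ → ℝ := fun k => 64 * 2 ^ k * (x / nm c) + 18
  have hBd0 : ∀ k, 0 ≤ Bd k := by
    intro k
    have : 0 ≤ x / nm c := by positivity
    positivity
  let good : (Ideal R × Ideal R) → R → Prop := fun b r =>
    χ (sp r) ≠ 0 ∧ χ (sp r) ^ (d / d) = χ b.1 / χ b.2
  have hpiece : ∀ i : (Ideal R × Ideal R) × R × ℕ, (PP i).Finite ∧
      ((PP i).ncard : ℝ) ≤ if good i.1 i.2.1 then Bd i.2.2 else 0 := by
    rintro ⟨⟨c1, c2⟩, r, k⟩
    by_cases hem : PP ⟨⟨c1, c2⟩, r, k⟩ = ∅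
    · rw [hem]
      refine ⟨Set.finite_empty, ?_⟩
      rw [Set.ncard_empty]
      split_ifs
      · exact_mod_cast hBd0 k
      · simp
    · obtain ⟨⟨I0, J0⟩, hp0⟩ := Set.nonempty_iff_ne_empty.2 hem
      obtain ⟨hp0, e1, e2, e3, e4⟩ := hp0
      simp only at e1 e2 e3 e4
      have hχI0 : χ I0 ≠ 0 := hp0.2.2.2.1
      have hχIJ0 : χ I0 = χ J0 := hp0.2.2.2.2
      have hχJ0 : χ J0 ≠ 0 := by rw [← hχIJ0]; exact hχI0
      obtain ⟨hI1, hI2, hI3, hI4, hI5⟩ := hal I0 hχI0
      obtain ⟨hJ1, hJ2, hJ3, hJ4, hJ5⟩ := hal J0 hχJ0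
      obtain ⟨hr1, hr2, hr3⟩ := hrr _ hp0
      rw [e3] at hr1 hr2 hr3
      have hc1 : c1 ∈ s := e1 ▸ hI1
      have hc2 : c2 ∈ s := e2 ▸ hJ1
      have hgood : good (c1, c2) r := by
        have h5 : χ (sp (al I0)) = χ (sp (r * al J0)) :=
          fpr1 _ _ hI3 (mul_ne_zero hr3 hJ3) hr2
        have h6 : sp (r * al J0) = sp r * sp (al J0) :=
          (Ideal.span_singleton_mul_span_singleton _ _).symm
        rw [h6, hχ.mul, hI4, hJ4, e1, e2, hχIJ0] at h5
        have h7 : χ c1 = χ (sp r) * χ c2 := by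
          have h8 : χ J0 * χ c1 = χ J0 * (χ (sp r) * χ c2) := by
            rw [h5]
            ring
          exact mul_left_cancel₀ hχJ0 h8
        refine ⟨?_, ?_⟩
        · intro h8
          rw [h8, zero_mul] at h7
          exact hχb c1 hc1 h7
        · show χ (sp r) ^ (d / d) = χ c1 / χ c2
          rw [Nat.div_self hd.pos, pow_one, h7, mul_div_cancel_right₀ _ (hχb c2 hc2)]
      have hif : (if good (c1, c2) r then Bd k else 0) = Bd k := if_pos hgood
      show (PP ⟨⟨c1, c2⟩, r, k⟩).Finite ∧ ((PP ⟨⟨c1, c2⟩, r, k⟩).ncard : ℝ) ≤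
        if good (c1, c2) r then Bd k else 0
      rw [hif]
      have hn1 : 1 ≤ nm c1 := b3 _ (hsne _ hc1)
      have hn2 : 1 ≤ nm c2 := b3 _ (hsne _ hc2)
      have h2k : (0 : ℝ) < 2 ^ k := by positivity
      have hX0 : (0 : ℝ) ≤ x * nm c1 / (2 ^ k * nm c2) := by positivity
      have hS0 : (0 : ℝ) < nm c * nm c1 / ((2 ^ (k + 1)) ^ 2 * nm c2) := by positivity
      have hpk := pack (PP ⟨⟨c1, c2⟩, r, k⟩)
        (fun p => ((al p.1 : R) : ℂ) / ((al p.2 : R) : ℂ))
        (x * nm c1 / (2 ^ k * nm c2)) (nm c * nm c1 / ((2 ^ (k + 1)) ^ 2 * nm c2)) hS0 hX0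
      -- data of an element of the piece
      have hdata : ∀ p ∈ PP ⟨⟨c1, c2⟩, r, k⟩, IsCoprime p.1 p.2 ∧ p.1 ≠ ⊥ ∧
          p.1 * c1 = sp (al p.1) ∧ p.2 * c2 = sp (al p.2) ∧ al p.2 ≠ 0 ∧
          al p.1 - r * al p.2 ∈ c ∧
          Complex.normSq ((al p.1 : R) : ℂ) ≤ x * nm c1 ∧
          (2 : ℝ) ^ k * nm c2 ≤ Complex.normSq ((al p.2 : R) : ℂ) ∧
          Complex.normSq ((al p.2 : R) : ℂ) ≤ 2 ^ (k + 1) * nm c2 := by
        rintro ⟨I, J⟩ ⟨hp, f1, f2, f3, f4⟩
        simp only at f1 f2 f3 f4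
        have hχI : χ I ≠ 0 := hp.2.2.2.1
        have hχIJ : χ I = χ J := hp.2.2.2.2
        have hχJ : χ J ≠ 0 := by rw [← hχIJ]; exact hχI
        obtain ⟨gI1, gI2, gI3, gI4, gI5⟩ := hal I hχI
        obtain ⟨gJ1, gJ2, gJ3, gJ4, gJ5⟩ := hal J hχJ
        obtain ⟨hr1', hr2', hr3'⟩ := hrr _ hp
        rw [f3] at hr2'
        rw [f1] at gI2
        rw [f2] at gJ2
        have hJ0' : J ≠ ⊥ := hne J hχJ
        have hnJ : 1 ≤ nm J := b3 J hJ0'
        have hcardJ : (Nat.card (R ⧸ J) : ℝ) = nm J := rfl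
        have hcard0 : Nat.card (R ⧸ J) ≠ 0 := by
          intro h0
          rw [h0] at hcardJ
          rw [← hcardJ] at hnJ
          norm_num at hnJ
        have l1 : (2 : ℝ) ^ k ≤ nm J := by
          have : 2 ^ k ≤ Nat.card (R ⧸ J) := by
            rw [← f4]
            exact Nat.pow_log_le_self 2 hcard0
          rw [← hcardJ]
          exact_mod_cast this
        have l2 : nm J ≤ (2 : ℝ) ^ (k + 1) := by
          have : Nat.card (R ⧸ J) < 2 ^ (k + 1) := by
            rw [← f4]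
            exact Nat.lt_pow_succ_log_self (by norm_num) _
          rw [← hcardJ]
          exact_mod_cast this.le
        refine ⟨hp.1, hne I hχI, gI2, gJ2, gJ3, hr2', ?_, ?_, ?_⟩
        · show Complex.normSq ((al I : R) : ℂ) ≤ x * nm c1
          rw [← b5, ← gI2, b4]
          exact mul_le_mul_of_nonneg_right hp.2.1 (by linarith)
        · show (2 : ℝ) ^ k * nm c2 ≤ Complex.normSq ((al J : R) : ℂ)
          rw [← b5, ← gJ2, b4]
          exact mul_le_mul_of_nonneg_right l1 (by linarith)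
        · show Complex.normSq ((al J : R) : ℂ) ≤ 2 ^ (k + 1) * nm c2
          rw [← b5, ← gJ2, b4]
          exact mul_le_mul_of_nonneg_right l2 (by linarith)
      have hpk2 := hpk ?_ ?_
      · refine ⟨hpk2.1, hpk2.2.trans (le_of_eq ?_)⟩
        show 16 * (x * nm c1 / (2 ^ k * nm c2) / (nm c * nm c1 / ((2 ^ (k + 1)) ^ 2 * nm c2))) + 18
          = 64 * 2 ^ k * (x / nm c) + 18
        have hc1' : nm c1 ≠ 0 := by linarith
        have hc2' : nm c2 ≠ 0 := by linarith
        have hc' : nm c ≠ 0 := by linarith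
        rw [pow_succ]
        field_simp
        ring
      · intro p hp
        obtain ⟨-, -, -, -, k5, -, k7, k8, -⟩ := hdata p hp
        rw [map_div₀]
        have hpos : 0 < Complex.normSq ((al p.2 : R) : ℂ) := lt_of_lt_of_le (by positivity) k8
        rw [div_le_div_iff₀ hpos (by positivity)]
        have h0 : 0 ≤ x * nm c1 := by positivity
        exact mul_le_mul k7 k8 (by positivity) h0
      · intro p hp p' hp' hne'
        obtain ⟨k1, k2, k3, k4, k5, k6, -, k8, k9⟩ := hdata p hp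
        obtain ⟨m1, m2, m3, m4, m5, m6, -, m8, m9⟩ := hdata p' hp'
        set δ : R := al p.1 * al p'.2 - al p'.1 * al p.2 with hδ
        have hδ0 : δ ≠ 0 := by
          intro h0
          have h5 := pair_eq k3 k4 m3 m4 (hsne _ hc1) (hsne _ hc2) k2 k1 m1 (sub_eq_zero.1 h0)
          exact hne' (Prod.ext h5.1 h5.2)
        have hm1 : δ ∈ c := by
          have e : δ = (al p.1 - r * al p.2) * al p'.2 - (al p'.1 - r * al p'.2) * al p.2 := by
            rw [hδ]
            ring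
          rw [e]
          exact c.sub_mem (c.mul_mem_right _ k6) (c.mul_mem_right _ m6)
        have ha1 : ∀ (I b : Ideal R) (α : R), I * b = sp α → α ∈ b := by
          intro I b α he
          have : α ∈ sp α := Ideal.mem_span_singleton_self α
          rw [← he] at this
          exact Ideal.mul_le_right this
        have hm2 : δ ∈ c1 * c2 := by
          refine (c1 * c2).sub_mem ?_ ?_
          · exact Ideal.mul_mem_mul (ha1 _ _ _ k3) (ha1 _ _ _ m4)
          · exact Ideal.mul_mem_mul (ha1 _ _ _ m3) (ha1 _ _ _ k4)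
        have hcop : IsCoprime c (c1 * c2) :=
          ((hbc _ hc1).mul_left (hbc _ hc2)).symm
        have hm3 : δ ∈ c * (c1 * c2) := by
          rw [Ideal.mul_eq_inf_of_isCoprime hcop]
          exact ⟨hm1, hm2⟩
        have hle := nm_le_normSq b6 b5 hm3 hδ0
        rw [b4, b4] at hle
        have hpos : 0 < Complex.normSq ((al p.2 : R) : ℂ) := lt_of_lt_of_le (by positivity) k8
        have hpos' : 0 < Complex.normSq ((al p'.2 : R) : ℂ) := lt_of_lt_of_le (by positivity) m8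
        have hz : ((al p.2 : R) : ℂ) ≠ 0 := by
          intro h0
          rw [h0, map_zero] at hpos
          exact lt_irrefl _ hpos
        have hz' : ((al p'.2 : R) : ℂ) ≠ 0 := by
          intro h0
          rw [h0, map_zero] at hpos'
          exact lt_irrefl _ hpos'
        have e : ((al p.1 : R) : ℂ) / ((al p.2 : R) : ℂ) - ((al p'.1 : R) : ℂ) / ((al p'.2 : R) : ℂ)
            = ((δ : R) : ℂ) / (((al p.2 : R) : ℂ) * ((al p'.2 : R) : ℂ)) := by
          rw [hδ]
          push_cast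
          field_simp
        show nm c * nm c1 / ((2 ^ (k + 1)) ^ 2 * nm c2) ≤ Complex.normSq
          (((al p.1 : R) : ℂ) / ((al p.2 : R) : ℂ) - ((al p'.1 : R) : ℂ) / ((al p'.2 : R) : ℂ))
        rw [e, map_div₀, map_mul, div_le_div_iff₀ (by positivity) (by positivity)]
        have hprod : Complex.normSq ((al p.2 : R) : ℂ) * Complex.normSq ((al p'.2 : R) : ℂ) ≤
            (2 ^ (k + 1) * nm c2) * (2 ^ (k + 1) * nm c2) :=
          mul_le_mul k9 m9 hpos'.le (by positivity)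
        calc nm c * nm c1 * (Complex.normSq ((al p.2 : R) : ℂ) *
              Complex.normSq ((al p'.2 : R) : ℂ))
            ≤ nm c * nm c1 * ((2 ^ (k + 1) * nm c2) * (2 ^ (k + 1) * nm c2)) :=
              mul_le_mul_of_nonneg_left hprod (by positivity)
          _ = (nm c * (nm c1 * nm c2)) * ((2 ^ (k + 1)) ^ 2 * nm c2) := by ring
          _ ≤ Complex.normSq ((δ : R) : ℂ) * ((2 ^ (k + 1)) ^ 2 * nm c2) :=
              mul_le_mul_of_nonneg_right hle (by positivity)
  -- the union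
  set Fi : Finset ((Ideal R × Ideal R) × R × ℕ) :=
    (s ×ˢ s) ×ˢ (T ×ˢ Finset.range (K + 1)) with hFi
  have hcover : prs χ x y ⊆ ⋃ i ∈ Fi, PP i := by
    rintro ⟨I, J⟩ hp
    have hχI : χ I ≠ 0 := hp.2.2.2.1
    have hχIJ : χ I = χ J := hp.2.2.2.2
    have hχJ : χ J ≠ 0 := by rw [← hχIJ]; exact hχI
    have hrT := (hrr _ hp).1
    have hkK : kk J ≤ K := by
      refine Nat.log_mono_right ?_
      refine Nat.le_floor ?_
      exact hp.2.2.1
    rw [Set.mem_iUnion₂]
    refine ⟨((bb I, bb J), (rr (I, J), kk J)), ?_, ?_⟩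
    · rw [hFi, Finset.mem_product, Finset.mem_product, Finset.mem_product, Finset.mem_range]
      exact ⟨⟨(hal I hχI).1, (hal J hχJ).1⟩, hrT, Nat.lt_succ_of_le hkK⟩
    · exact ⟨hp, rfl, rfl, rfl, rfl⟩
  have hUfin : (⋃ i ∈ Fi, PP i).Finite :=
    Set.Finite.biUnion (Finset.finite_toSet Fi) fun i _ => (hpiece i).1
  have hfin : (prs χ x y).Finite := hUfin.subset hcover
  refine ⟨hfin, ?_⟩
  have c1 : (prs χ x y).ncard ≤ ∑ i ∈ Fi, (PP i).ncard :=
    (Set.ncard_le_ncard hcover hUfin).trans (Finset.set_ncard_biUnion_le Fi PP)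
  have c2 : ((prs χ x y).ncard : ℝ) ≤ ∑ i ∈ Fi, (if good i.1 i.2.1 then Bd i.2.2 else 0) := by
    calc ((prs χ x y).ncard : ℝ) ≤ ((∑ i ∈ Fi, (PP i).ncard : ℕ) : ℝ) := by exact_mod_cast c1
      _ = ∑ i ∈ Fi, ((PP i).ncard : ℝ) := by push_cast; rfl
      _ ≤ _ := Finset.sum_le_sum fun i _ => (hpiece i).2
  have hdpos : (0 : ℝ) < d := by exact_mod_cast hd.pos
  set SB : ℝ := ∑ k ∈ Finset.range (K + 1), Bd k with hSB
  have hSB0 : 0 ≤ SB := Finset.sum_nonneg fun k _ => hBd0 k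
  have c3 : ∑ i ∈ Fi, (if good i.1 i.2.1 then Bd i.2.2 else 0) ≤
      ∑ b ∈ s ×ˢ s, (CK * nm q / d) * SB := by
    rw [hFi, Finset.sum_product]
    refine Finset.sum_le_sum fun b _ => ?_
    rw [Finset.sum_product]
    have h5 : ∀ r ∈ T, ∑ k ∈ Finset.range (K + 1), (if good (b, (r, k)).1 (b, (r, k)).2.1 then
        Bd (b, (r, k)).2.2 else 0) = if good b r then SB else 0 := by
      intro r _
      show ∑ k ∈ Finset.range (K + 1), (if good b r then Bd k else 0) = if good b r then SB else 0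
      split_ifs
      · rfl
      · exact Finset.sum_const_zero
    rw [Finset.sum_congr rfl h5, ← Finset.sum_filter, Finset.sum_const, nsmul_eq_mul]
    refine mul_le_mul_of_nonneg_right ?_ hSB0
    have h6 := hker c χ hχ d hd d (dvd_refl d) q hh T hcq hq0 hsys.rp (χ b.1 / χ b.2)
    refine le_trans (le_of_eq ?_) h6
    congr 2
  have c4 : SB ≤ 128 * (1 + Real.log y + x * y / nm c) := by
    have g1 : ∑ k ∈ Finset.range (K + 1), (2 : ℝ) ^ k ≤ 2 * 2 ^ K := by
      rw [geom_sum_eq (by norm_num)]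
      rw [pow_succ]
      have : (0 : ℝ) < 2 ^ K := by positivity
      norm_num
      linarith
    have hfy : ⌊y⌋₊ ≠ 0 := by
      have : 1 ≤ ⌊y⌋₊ := Nat.le_floor (by exact_mod_cast hy)
      omega
    have g2 : (2 : ℝ) ^ K ≤ y := by
      have h5 : 2 ^ K ≤ ⌊y⌋₊ := Nat.pow_log_le_self 2 hfy
      have h6 : ((2 ^ K : ℕ) : ℝ) ≤ (⌊y⌋₊ : ℝ) := by exact_mod_cast h5
      have h7 := Nat.floor_le (by linarith : (0 : ℝ) ≤ y)
      push_cast at h6
      linarith
    have g3 : (K : ℝ) ≤ 2 * Real.log y := by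
      have h5 : Real.log ((2 : ℝ) ^ K) ≤ Real.log y := Real.log_le_log (by positivity) g2
      rw [Real.log_pow] at h5
      have h6 : (1 / 2 : ℝ) < Real.log 2 := by
        have := Real.log_two_gt_d9
        linarith
      have h7 : (0 : ℝ) ≤ K := Nat.cast_nonneg K
      nlinarith
    have hxc : 0 ≤ x / nm c := by positivity
    have g4 : SB = 64 * (x / nm c) * (∑ k ∈ Finset.range (K + 1), (2 : ℝ) ^ k) +
        18 * ((K : ℝ) + 1) := by
      rw [hSB]
      show ∑ k ∈ Finset.range (K + 1), (64 * 2 ^ k * (x / nm c) + 18) = _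
      rw [Finset.sum_add_distrib, Finset.sum_const, Finset.card_range, nsmul_eq_mul,
        Finset.mul_sum]
      push_cast
      have : ∀ k ∈ Finset.range (K + 1), 64 * (2 : ℝ) ^ k * (x / nm c) =
          64 * (x / nm c) * 2 ^ k := fun k _ => by ring
      rw [Finset.sum_congr rfl this]
      ring
    have hlog : 0 ≤ Real.log y := Real.log_nonneg hy
    have g5 : 64 * (x / nm c) * (∑ k ∈ Finset.range (K + 1), (2 : ℝ) ^ k) ≤
        64 * (x / nm c) * (2 * y) :=
      mul_le_mul_of_nonneg_left (by linarith) (by positivity)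
    have g6 : 64 * (x / nm c) * (2 * y) = 128 * (x * y / nm c) := by
      field_simp
      ring
    rw [g4]
    linarith
  have hs2 : ((s ×ˢ s).card : ℝ) = (h : ℝ) ^ 2 := by
    rw [Finset.card_product, hs]
    push_cast
    ring
  calc ((prs χ x y).ncard : ℝ) ≤ _ := c2
    _ ≤ _ := c3
    _ = (h : ℝ) ^ 2 * ((CK * nm q / d) * SB) := by
        rw [Finset.sum_const, nsmul_eq_mul, hs2]
    _ ≤ (h : ℝ) ^ 2 * ((CK * nm q / d) * (128 * (1 + Real.log y + x * y / nm c))) := by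
        have hnq : 0 ≤ nm q := by rw [hqnm]; linarith
        have h0 : 0 ≤ CK * nm q / d := by positivity
        exact mul_le_mul_of_nonneg_left (mul_le_mul_of_nonneg_left c4 h0) (by positivity)
    _ = (h : ℝ) ^ 2 * (4 * CK * 128) * (nm c / d) * (1 + Real.log y + x * y / nm c) := by
        rw [hqnm]
        ring

end Pool.Agent.W765.HK
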